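import Mathlib

/-!
# The minimal `(m, n)`-product of Boolean algebras is not the smallest `(m, n)`-product
-/

set_option autoImplicit false

namespace Pool.Agent.Results.MP_6fd33d_al.NotSmallest

open Cardinal TopologicalSpace
open Heyting (Regular)

/-! ### The definitions -/

/-- `B` is a Boolean `m`-algebra: all subsets with at most `m` elements have a join and a meet. -/
def IsMAlgebra (m : Cardinal.{0}) (B : Type) [BooleanAlgebra B] : Prop :=
  ∀ S : Set B, #S ≤ m → (∃ a, IsLUB S a) ∧ ∃ a, IsGLB S a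

/-- `h` is an `m`-homomorphism: a Boolean homomorphism which preserves all the joins and meets of at
most `m` elements that exist in its domain. -/
structure IsMHom (m : Cardinal.{0}) {A B : Type} [BooleanAlgebra A] [BooleanAlgebra B]
    (h : A → B) : Prop where
  map_sup : ∀ a b, h (a ⊔ b) = h a ⊔ h b
  map_inf : ∀ a b, h (a ⊓ b) = h a ⊓ h b
  map_compl : ∀ a, h aᶜ = (h a)ᶜ
  map_lub : ∀ (S : Set A) (a : A), #S ≤ m → IsLUB S a → IsLUB (h '' S) (h a)
  map_glb : ∀ (S : Set A) (a : A), #S ≤ m → IsGLB S a → IsGLB (h '' S) (h a)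

/-- A Boolean algebra `B` with maps `i t : A t → B`. -/
structure ProdData {T : Type} (A : T → Type) where
  /-- the algebra -/
  B : Type
  /-- its Boolean structure -/
  inst : BooleanAlgebra B
  /-- the maps -/
  i : ∀ t, A t → B

instance {T : Type} {A : T → Type} (Q : ProdData A) : BooleanAlgebra Q.B := Q.inst

section
variable {T : Type} {A : T → Type} [∀ t, BooleanAlgebra (A t)]

/-- The images of the `A t` in `Q` are `k`-independent: for all sets `T'` of at most `k` indices and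
all nonzero elements `c t ∈ i t (A t)`, `t ∈ T'`, the meet of the `c t`, `t ∈ T'`, exists and is not
zero. -/
def IndepCard (k : Cardinal.{0}) (Q : ProdData A) : Prop :=
  ∀ T' : Set T, #T' ≤ k → ∀ c : T → Q.B, (∀ t ∈ T', c t ∈ Set.range (Q.i t) ∧ c t ≠ ⊥) →
    ∃ a, IsGLB (c '' T') a ∧ a ≠ ⊥

/-- The images of the `A t` in `Q` are independent: the same for all finite sets `T'`. -/
def IndepFin (Q : ProdData A) : Prop :=
  ∀ T' : Set T, T'.Finite → ∀ c : T → Q.B, (∀ t ∈ T', c t ∈ Set.range (Q.i t) ∧ c t ≠ ⊥) →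
    ∃ a, IsGLB (c '' T') a ∧ a ≠ ⊥

/-- The images of the `A t` generate the Boolean `m`-algebra of `Q`: every subset which contains
them and is closed under complements and under joins of at most `m` elements is everything. -/
def Generates (m : Cardinal.{0}) (Q : ProdData A) : Prop :=
  ∀ S : Set Q.B, (∀ t, Set.range (Q.i t) ⊆ S) → (∀ a ∈ S, aᶜ ∈ S) →
    (∀ R ⊆ S, #R ≤ m → ∀ a, IsLUB R a → a ∈ S) → S = Set.univ

/-- `Q` is an `(m, 0)`-product of the Boolean algebras `A t`. -/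
structure IsProduct₀ (m : Cardinal.{0}) (Q : ProdData A) : Prop where
  alg : IsMAlgebra m Q.B
  hom : ∀ t, IsMHom m (Q.i t)
  inj : ∀ t, Function.Injective (Q.i t)
  indep : IndepFin Q
  gen : Generates m Q

/-- `Q` is an `(m, n)`-product: an `(m, 0)`-product with `n`-independent images. -/
def IsProduct (m n : Cardinal.{0}) (Q : ProdData A) : Prop :=
  IsProduct₀ m Q ∧ IndepCard n Q

/-- `Q' ≤ Q`: there is an `m`-homomorphism `h` from `Q` to `Q'` with `i' t = h ∘ i t`. -/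
def Le (m : Cardinal.{0}) (Q' Q : ProdData A) : Prop :=
  ∃ h : Q.B → Q'.B, IsMHom m h ∧ ∀ t x, Q'.i t x = h (Q.i t x)

/-- `M` is a minimal `(m, n)`-product: the meets of families of elements `c t ∈ i t (A t)`,
`t ∈ T'`, `T'` of size at most `n`, are dense. -/
def IsMinimal (m n : Cardinal.{0}) (M : ProdData A) : Prop :=
  IsProduct m n M ∧ ∀ b : M.B, b ≠ ⊥ → ∃ T' : Set T, #T' ≤ n ∧ ∃ c : T → M.B,
    (∀ t ∈ T', c t ∈ Set.range (M.i t)) ∧ ∃ a, IsGLB (c '' T') a ∧ a ≠ ⊥ ∧ a ≤ b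

end

/-! ### Regular open sets -/

/-- The Boolean algebra of the regular open sets. -/
def RO (X : Type) [TopologicalSpace X] : Type := Heyting.Regular (Opens X)

noncomputable instance (X : Type) [TopologicalSpace X] : BooleanAlgebra (RO X) :=
  inferInstanceAs (BooleanAlgebra (Heyting.Regular (Opens X)))

section RO
variable {X Y : Type} [TopologicalSpace X] [TopologicalSpace Y]

/-- the open set -/
def RO.op (U : RO X) : Opens X := Heyting.Regular.val U

theorem op_inj {U V : RO X} (h : U.op = V.op) : U = V := Regular.coe_injective h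

theorem op_le {U V : RO X} : U ≤ V ↔ U.op ≤ V.op := Iff.rfl

theorem op_inf (U V : RO X) : (U ⊓ V).op = U.op ⊓ V.op := rfl

theorem op_compl (U : RO X) : (Uᶜ).op = (U.op)ᶜ := rfl

theorem op_bot : (⊥ : RO X).op = ⊥ := rfl

theorem op_top : (⊤ : RO X).op = ⊤ := rfl

/-- regularization -/
def reg (U : Opens X) : RO X := Heyting.Regular.toRegular U

theorem le_reg (U : Opens X) : U ≤ (reg U).op := le_compl_compl

theorem reg_le {U : Opens X} {V : RO X} : reg U ≤ V ↔ U ≤ V.op := Heyting.Regular.gi.gc U V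

theorem ro_lub (S : Set (RO X)) : ∃ a, IsLUB S a := by
  refine ⟨reg (sSup (RO.op '' S)), fun s hs => ?_, fun b hb => ?_⟩
  · rw [op_le]
    exact le_trans (le_sSup (Set.mem_image_of_mem RO.op hs)) (le_reg _)
  · rw [reg_le]
    apply sSup_le
    rintro _ ⟨s, hs, rfl⟩
    exact hb hs

theorem ro_glb (S : Set (RO X)) : ∃ a, IsGLB S a := by
  obtain ⟨a, ha⟩ := ro_lub (lowerBounds S)
  exact ⟨a, isLUB_lowerBounds.1 ha⟩

theorem ro_alg (m : Cardinal.{0}) : IsMAlgebra m (RO X) := fun S _ => ⟨ro_lub S, ro_glb S⟩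

/-- a family of regular open sets whose union is `a` has the join `a` -/
theorem lub_of_union (S : Set (RO X)) (a : RO X) (h1 : ∀ s ∈ S, s ≤ a)
    (h2 : ∀ x ∈ a.op, ∃ s ∈ S, x ∈ s.op) : IsLUB S a := by
  refine ⟨fun s hs => h1 s hs, fun b hb => ?_⟩
  intro x hx
  obtain ⟨s, hs, hxs⟩ := h2 x hx
  exact hb hs hxs

/-- the preimage of a regular open set under an open continuous map -/
theorem comap_compl (p : C(Y, X)) (hp : IsOpenMap p) (U : Opens X) :
    Opens.comap p Uᶜ = (Opens.comap p U)ᶜ := by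
  apply le_antisymm
  · rw [le_compl_iff_disjoint_right, disjoint_iff, ← map_inf, inf_comm, inf_compl_self, map_bot]
  · intro y hy
    set W : Opens Y := (Opens.comap p U)ᶜ with hW
    have h1 : (⟨p '' W, hp _ W.2⟩ : Opens X) ≤ Uᶜ := by
      rw [le_compl_iff_disjoint_right, disjoint_iff, eq_bot_iff]
      rintro x ⟨⟨z, hz, rfl⟩, hxU⟩
      have h2 : z ∈ W ⊓ Opens.comap p U := ⟨hz, hxU⟩
      rw [hW, inf_comm, inf_compl_self] at h2
      exact h2.elim
    exact h1 ⟨y, hy, rfl⟩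

/-- pull back along an open continuous map -/
def pull (p : C(Y, X)) (hp : IsOpenMap p) (U : RO X) : RO Y :=
  ⟨Opens.comap p U.op, by
    unfold Heyting.IsRegular
    rw [← comap_compl p hp, ← comap_compl p hp]
    exact congrArg _ U.2⟩

theorem mem_pull (p : C(Y, X)) (hp : IsOpenMap p) (U : RO X) (y : Y) :
    y ∈ (pull p hp U).op ↔ p y ∈ U.op := Iff.rfl

theorem ro_ext {U V : RO X} (h : ∀ x, x ∈ U.op ↔ x ∈ V.op) : U = V := by
  apply op_inj
  apply Opens.ext
  ext x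
  exact h x

theorem pull_inf (p : C(Y, X)) (hp : IsOpenMap p) (U V : RO X) :
    pull p hp (U ⊓ V) = pull p hp U ⊓ pull p hp V := ro_ext fun _ => Iff.rfl

theorem pull_compl (p : C(Y, X)) (hp : IsOpenMap p) (U : RO X) :
    pull p hp Uᶜ = (pull p hp U)ᶜ := by
  apply op_inj
  exact comap_compl p hp U.op

theorem pull_mono (p : C(Y, X)) (hp : IsOpenMap p) {U V : RO X} (h : U ≤ V) :
    pull p hp U ≤ pull p hp V := fun _ hy => h hy

theorem not_mem_bot (x : X) : x ∉ (⊥ : RO X).op := fun h => h.elim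

theorem pull_lub (p : C(Y, X)) (hp : IsOpenMap p) (S : Set (RO X)) (a : RO X) (h : IsLUB S a) :
    IsLUB (pull p hp '' S) (pull p hp a) := by
  refine ⟨?_, fun b hb => ?_⟩
  · rintro _ ⟨s, hs, rfl⟩
    exact pull_mono p hp (h.1 hs)
  · have h1 : pull p hp a ⊓ bᶜ = ⊥ := by
      by_contra hne
      set W : Opens Y := (pull p hp a ⊓ bᶜ).op with hW
      set P : Opens X := ⟨p '' W, hp _ W.2⟩ with hP
      have h2 : ∀ s ∈ S, s ≤ (reg P)ᶜ := by
        intro s hs
        rw [le_compl_iff_disjoint_right]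
        have h3 : Disjoint P s.op := by
          rw [disjoint_iff, eq_bot_iff]
          rintro x ⟨⟨z, hz, rfl⟩, hxs⟩
          have h4 : z ∈ b.op := hb ⟨s, hs, rfl⟩ hxs
          have h5 : z ∈ (b ⊓ bᶜ).op := ⟨h4, hz.2⟩
          rw [inf_compl_self] at h5
          exact (not_mem_bot _ h5).elim
        have h6 : P ≤ (sᶜ).op := by
          rw [op_compl, le_compl_iff_disjoint_right]
          exact h3
        have h7 : reg P ≤ sᶜ := reg_le.2 h6
        exact (le_compl_iff_disjoint_right.1 h7).symm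
      have h8 : a ≤ (reg P)ᶜ := h.2 h2
      have h9 : P ≤ a.op := by
        rintro x ⟨z, hz, rfl⟩
        exact hz.1
      have h10 : reg P ≤ a := reg_le.2 h9
      have h11 : reg P = ⊥ := by
        have := le_inf le_rfl (h10.trans h8)
        rw [inf_compl_self] at this
        exact le_bot_iff.1 this
      apply hne
      apply ro_ext
      intro y
      constructor
      · intro hy
        have h12 : p y ∈ P := ⟨y, hy, rfl⟩
        have h14 := le_reg P h12
        rw [h11] at h14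
        exact (not_mem_bot _ h14).elim
      · intro hy
        exact (not_mem_bot _ hy).elim
    rwa [← disjoint_iff, disjoint_compl_right_iff] at h1

theorem hom_of_lub {A B : Type} [BooleanAlgebra A] [BooleanAlgebra B] (m : Cardinal.{0}) (h : A → B)
    (hinf : ∀ a b, h (a ⊓ b) = h a ⊓ h b) (hc : ∀ a, h aᶜ = (h a)ᶜ)
    (hl : ∀ (S : Set A) (a : A), IsLUB S a → IsLUB (h '' S) (h a)) : IsMHom m h := by
  refine ⟨fun a b => ?_, hinf, hc, fun S a _ => hl S a, fun S a _ hS => ?_⟩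
  · have h1 := hinf aᶜ bᶜ
    rw [← compl_sup, hc, hc, hc, ← compl_sup] at h1
    exact compl_injective h1
  · have h1 : IsLUB (compl '' S) aᶜ := by
      refine ⟨?_, fun b hb => ?_⟩
      · rintro _ ⟨s, hs, rfl⟩
        exact compl_le_compl (hS.1 hs)
      · rw [compl_le_iff_compl_le]
        apply hS.2
        intro s hs
        rw [compl_le_iff_compl_le]
        exact hb ⟨s, hs, rfl⟩
    have h2 := hl _ _ h1
    refine ⟨?_, fun b hb => ?_⟩
    · rintro _ ⟨s, hs, rfl⟩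
      have h3 : h sᶜ ≤ h aᶜ := h2.1 ⟨sᶜ, ⟨s, hs, rfl⟩, rfl⟩
      rw [hc, hc, compl_le_compl_iff_le] at h3
      exact h3
    · rw [← compl_le_compl_iff_le, ← hc]
      apply h2.2
      rintro _ ⟨_, ⟨s, hs, rfl⟩, rfl⟩
      rw [hc, compl_le_compl_iff_le]
      exact hb ⟨s, hs, rfl⟩

theorem pull_hom (m : Cardinal.{0}) (p : C(Y, X)) (hp : IsOpenMap p) : IsMHom m (pull p hp) :=
  hom_of_lub m _ (pull_inf p hp) (pull_compl p hp) (pull_lub p hp)

theorem pull_inj (p : C(Y, X)) (hp : IsOpenMap p) (hs : Function.Surjective p) :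
    Function.Injective (pull p hp) := by
  intro U V h
  apply ro_ext
  intro x
  obtain ⟨y, rfl⟩ := hs x
  rw [← mem_pull p hp, h, mem_pull]

theorem ne_bot_iff (U : RO X) : U ≠ ⊥ ↔ ∃ x, x ∈ U.op := by
  constructor
  · intro h
    by_contra h2
    push Not at h2
    exact h (ro_ext fun x => ⟨fun h3 => (h2 x h3).elim, fun h3 => (not_mem_bot _ h3).elim⟩)
  · rintro ⟨x, hx⟩ rfl
    exact not_mem_bot _ hx

end RO

/-! ### Homomorphisms -/

section hom
variable {A B : Type} [BooleanAlgebra A] [BooleanAlgebra B] {m : Cardinal.{0}} {h : A → B}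

theorem IsMHom.top (hh : IsMHom m h) : h ⊤ = ⊤ := by
  have h1 := hh.map_sup ⊤ ⊤ᶜ
  rw [hh.map_compl, sup_compl_eq_top, sup_compl_eq_top] at h1
  exact h1

theorem IsMHom.bot (hh : IsMHom m h) : h ⊥ = ⊥ := by
  have h1 := hh.map_compl ⊤
  rw [hh.top, compl_top, compl_top] at h1
  exact h1

theorem IsMHom.mono (hh : IsMHom m h) {a b : A} (hab : a ≤ b) : h a ≤ h b := by
  have h1 := hh.map_inf a b
  rw [inf_eq_left.2 hab] at h1
  rw [h1]
  exact inf_le_right

end hom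

/-! ### Intervals -/

/-- the interval `(a, b)` as a regular open set -/
noncomputable def J (a b : ℚ) : RO ℚ := reg ⟨Set.Ioo a b, isOpen_Ioo⟩

theorem mem_J (a b x : ℚ) : x ∈ (J a b).op ↔ a < x ∧ x < b := by
  have h1 : ((J a b).op : Set ℚ) = Set.Ioo a b := by
    change (((⟨Set.Ioo a b, isOpen_Ioo⟩ : Opens ℚ)ᶜᶜ : Opens ℚ) : Set ℚ) = _
    rw [Opens.coe_compl_eq_interior_compl, Opens.coe_compl_eq_interior_compl]
    change interior (interior (Set.Ioo a b)ᶜ)ᶜ = Set.Ioo a b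
    have h0 : interior (Set.Ioo a b)ᶜ = (closure (Set.Ioo a b))ᶜ := interior_compl
    rw [h0, compl_compl]
    rcases lt_or_ge a b with h | h
    · rw [closure_Ioo h.ne, interior_Icc]
    · rw [Set.Ioo_eq_empty (not_lt.2 h)]
      simp
  rw [← SetLike.mem_coe, h1]
  rfl

theorem J_ne (a b : ℚ) (h : a < b) : J a b ≠ ⊥ :=
  (ne_bot_iff _).2 ⟨(a + b) / 2, (mem_J _ _ _).2 ⟨by linarith, by linarith⟩⟩

theorem J_le {U : RO ℚ} {a b : ℚ} (h : ∀ x, a < x → x < b → x ∈ U.op) : J a b ≤ U := by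
  intro x hx
  have h1 := (mem_J a b x).1 hx
  exact h x h1.1 h1.2

/-- an interval around a point of a regular open set -/
theorem exists_J (U : RO ℚ) (x : ℚ) (hx : x ∈ U.op) : ∃ e : ℚ, 0 < e ∧ ∀ d : ℚ, 0 < d → d ≤ e →
    ∀ y, x - d < y → y < x + d → y ∈ U.op := by
  have h1 : (U.op : Set ℚ) ∈ nhds x := U.op.2.mem_nhds hx
  obtain ⟨l, u, ⟨h2, h3⟩, h4⟩ := mem_nhds_iff_exists_Ioo_subset.1 h1
  refine ⟨min (x - l) (u - x), lt_min (by linarith) (by linarith), fun d _ hde y hy1 hy2 => ?_⟩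
  have h5 := le_trans hde (min_le_left _ _)
  have h6 := le_trans hde (min_le_right _ _)
  exact h4 ⟨by linarith, by linarith⟩

/-! ### Products with two factors -/

/-- both factors are the algebra of the regular open sets of `ℚ` -/
abbrev AA : Bool → Type := fun _ => RO ℚ

theorem exists_pre (Q : ProdData AA) {m : Cardinal.{0}} (hQ : ∀ t, IsMHom m (Q.i t)) (T' : Set Bool)
    (c : Bool → Q.B) (hc : ∀ t ∈ T', c t ∈ Set.range (Q.i t)) : ∃ x : Bool → RO ℚ,
      (∀ t ∈ T', Q.i t (x t) = c t) ∧ (∀ t, t ∉ T' → x t = ⊤) ∧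
      IsGLB (c '' T') (Q.i false (x false) ⊓ Q.i true (x true)) := by
  classical
  have h1 : ∀ t, ∃ x : RO ℚ, (t ∈ T' → Q.i t x = c t) ∧ (t ∉ T' → x = ⊤) := by
    intro t
    by_cases ht : t ∈ T'
    · obtain ⟨x, hx⟩ := hc t ht
      exact ⟨x, fun _ => hx, fun h => (h ht).elim⟩
    · exact ⟨⊤, fun h => (ht h).elim, fun _ => rfl⟩
  choose x hx1 hx2 using h1
  refine ⟨x, hx1, hx2, ?_, ?_⟩
  · rintro _ ⟨t, ht, rfl⟩
    rw [← hx1 t ht]
    cases t
    · exact inf_le_left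
    · exact inf_le_right
  · intro b hb
    have h2 : ∀ t, b ≤ Q.i t (x t) := by
      intro t
      by_cases ht : t ∈ T'
      · rw [hx1 t ht]
        exact hb ⟨t, ht, rfl⟩
      · rw [hx2 t ht]
        have : Q.i t (⊤ : RO ℚ) = ⊤ := (hQ t).top
        rw [this]
        exact le_top
    exact le_inf (h2 false) (h2 true)

/-- the rectangles which avoid the graph of the translation by `g` -/
def Rset (Q : ProdData AA) (g : ℚ) : Set Q.B :=
  {r | ∃ a b c d : ℚ, (∀ x, a < x → x < b → ¬ (c < x + g ∧ x + g < d)) ∧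
    r = Q.i false (J a b) ⊓ Q.i true (J c d)}

theorem Rset_countable (Q : ProdData AA) (g : ℚ) : (Rset Q g).Countable := by
  refine (Set.countable_range (fun q : ℚ × ℚ × ℚ × ℚ =>
    Q.i false (J q.1 q.2.1) ⊓ Q.i true (J q.2.2.1 q.2.2.2))).mono ?_
  rintro r ⟨a, b, c, d, -, rfl⟩
  exact ⟨(a, b, c, d), rfl⟩

theorem mk_le_of_countable {B : Type} {S : Set B} (h : S.Countable) {m : Cardinal.{0}}
    (hm : ℵ₀ ≤ m) : #S ≤ m := (Cardinal.le_aleph0_iff_set_countable.2 h).trans hm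

/-- in a minimal product the join of these rectangles is `1` -/
theorem Rset_minimal {m n : Cardinal.{0}} (M : ProdData AA) (hM : IsMinimal m n M) (g : ℚ) :
    IsLUB (Rset M g) ⊤ := by
  refine ⟨fun _ _ => le_top, fun z hz => ?_⟩
  rw [top_le_iff, ← compl_eq_bot]
  by_contra hne
  obtain ⟨T', -, c, hc, w, hw, hw0, hwz⟩ := hM.2 _ hne
  have hhom := hM.1.1.hom
  obtain ⟨x, -, -, hx⟩ := exists_pre M hhom T' c hc
  have hwx : w = M.i false (x false) ⊓ M.i true (x true) := hw.unique hx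
  have hx0 : x false ≠ ⊥ := by
    intro h
    apply hw0
    rw [hwx, h]
    have : M.i false (⊥ : RO ℚ) = ⊥ := (hhom false).bot
    rw [this, bot_inf_eq]
  have hx1 : x true ≠ ⊥ := by
    intro h
    apply hw0
    rw [hwx, h]
    have : M.i true (⊥ : RO ℚ) = ⊥ := (hhom true).bot
    rw [this, inf_bot_eq]
  obtain ⟨u, hu⟩ := (ne_bot_iff _).1 hx0
  obtain ⟨v, hv⟩ := (ne_bot_iff _).1 hx1
  obtain ⟨e1, he1, hU⟩ := exists_J _ u hu
  obtain ⟨e2, he2, hV⟩ := exists_J _ v hv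
  obtain ⟨v', hv'1, hv'2, hv'3⟩ : ∃ v' : ℚ, v - e2 < v' ∧ v' < v + e2 ∧ v' ≠ u + g := by
    by_cases h : v = u + g
    · exact ⟨v + e2 / 2, by linarith, by linarith, by intro h2; linarith⟩
    · exact ⟨v, by linarith, by linarith, h⟩
  have hv' : v' ∈ (x true).op := hV e2 he2 le_rfl v' hv'1 hv'2
  obtain ⟨e3, he3, hV'⟩ := exists_J _ v' hv'
  have hpos : 0 < |v' - (u + g)| := abs_pos.2 (sub_ne_zero.2 hv'3)
  obtain ⟨e, he, hea, heb, hec⟩ : ∃ e : ℚ, 0 < e ∧ e ≤ e1 ∧ e ≤ e3 ∧ 2 * e ≤ |v' - (u + g)| := by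
    refine ⟨min (min e1 e3) (|v' - (u + g)| / 2), lt_min (lt_min he1 he3) (by linarith),
      (min_le_left _ _).trans (min_le_left _ _), (min_le_left _ _).trans (min_le_right _ _), ?_⟩
    have := min_le_right (min e1 e3) (|v' - (u + g)| / 2)
    linarith
  set r : M.B := M.i false (J (u - e) (u + e)) ⊓ M.i true (J (v' - e) (v' + e)) with hr
  have hr1 : r ∈ Rset M g := by
    refine ⟨_, _, _, _, ?_, rfl⟩
    rintro y hy1 hy2 ⟨hy3, hy4⟩
    rcases abs_cases (v' - (u + g)) with ⟨h1, -⟩ | ⟨h1, -⟩ <;> rw [h1] at hec <;> linarith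
  have hr2 : r ≤ zᶜ := by
    refine le_trans ?_ hwz
    rw [hwx]
    exact inf_le_inf ((hhom false).mono (J_le (hU e he hea)))
      ((hhom true).mono (J_le (hV' e he heb)))
  have hr3 : r ≤ z := hz hr1
  have hr4 : r = ⊥ := by
    have := le_inf hr3 hr2
    rwa [inf_compl_self, le_bot_iff] at this
  have hlt1 : u - e < u + e := by linarith
  have hlt2 : v' - e < v' + e := by linarith
  let c' : Bool → M.B := fun t => match t with
    | false => M.i false (J (u - e) (u + e))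
    | true => M.i true (J (v' - e) (v' + e))
  obtain ⟨w', hw', hw'0⟩ := hM.1.1.indep Set.univ Set.finite_univ c' (by
    rintro (_ | _) -
    · refine ⟨⟨_, rfl⟩, fun h => J_ne _ _ hlt1 ?_⟩
      apply hM.1.1.inj false
      exact h.trans (hhom false).bot.symm
    · refine ⟨⟨_, rfl⟩, fun h => J_ne _ _ hlt2 ?_⟩
      apply hM.1.1.inj true
      exact h.trans (hhom true).bot.symm)
  apply hw'0
  rw [eq_bot_iff, ← hr4]
  exact le_inf (hw'.1 ⟨false, trivial, rfl⟩) (hw'.1 ⟨true, trivial, rfl⟩)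

/-- the product given by two open continuous maps -/
noncomputable def mk (Y : Type) [TopologicalSpace Y] (p : Bool → C(Y, ℚ))
    (hp : ∀ t, IsOpenMap (p t)) : ProdData AA where
  B := RO Y
  inst := inferInstance
  i := fun t => pull (p t) (hp t)

theorem mk_indep (Y : Type) [TopologicalSpace Y] (p : Bool → C(Y, ℚ))
    (hp : ∀ t, IsOpenMap (p t)) (hd : ∀ x y : ℚ, ∃ z : Y, p false z = x ∧ p true z = y)
    (T' : Set Bool) (c : Bool → (mk Y p hp).B)
    (hc : ∀ t ∈ T', c t ∈ Set.range ((mk Y p hp).i t) ∧ c t ≠ ⊥) :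
    ∃ a, IsGLB (c '' T') a ∧ a ≠ ⊥ := by
  have hhom : ∀ t, IsMHom ℵ₀ ((mk Y p hp).i t) := fun t => pull_hom ℵ₀ (p t) (hp t)
  obtain ⟨x, hx1, hx2, hx3⟩ := exists_pre (mk Y p hp) hhom T' c (fun t ht => (hc t ht).1)
  refine ⟨_, hx3, ?_⟩
  have hx : ∀ t, ∃ u, u ∈ (x t).op := by
    intro t
    rw [← ne_bot_iff]
    intro h
    by_cases ht : t ∈ T'
    · apply (hc t ht).2
      rw [← hx1 t ht, h]
      exact (hhom t).bot
    · rw [hx2 t ht] at h
      have h0 : (0 : ℚ) ∈ (⊤ : RO ℚ).op := trivial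
      rw [h] at h0
      exact not_mem_bot _ h0
  obtain ⟨u, hu⟩ := hx false
  obtain ⟨v, hv⟩ := hx true
  obtain ⟨z, hz1, hz2⟩ := hd u v
  apply (ne_bot_iff _).2
  refine ⟨z, ?_, ?_⟩
  · change p false z ∈ (x false).op
    rw [hz1]; exact hu
  · change p true z ∈ (x true).op
    rw [hz2]; exact hv

theorem mk_product (m n : Cardinal.{0}) (Y : Type) [TopologicalSpace Y] (p : Bool → C(Y, ℚ))
    (hp : ∀ t, IsOpenMap (p t)) (hd : ∀ x y : ℚ, ∃ z : Y, p false z = x ∧ p true z = y)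
    (hg : Generates m (mk Y p hp)) : IsProduct m n (mk Y p hp) := by
  refine ⟨⟨ro_alg m, fun t => pull_hom m (p t) (hp t), fun t => ?_, fun T' _ => ?_, hg⟩,
    fun T' _ => ?_⟩
  · refine pull_inj (p t) (hp t) fun x => ?_
    cases t
    · obtain ⟨z, hz, -⟩ := hd x x
      exact ⟨z, hz⟩
    · obtain ⟨z, -, hz⟩ := hd x x
      exact ⟨z, hz⟩
  · exact mk_indep Y p hp hd T'
  · exact mk_indep Y p hp hd T'

theorem inf_mem {m : Cardinal.{0}} (hm : ℵ₀ ≤ m) {B : Type} [BooleanAlgebra B] {S : Set B}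
    (h1 : ∀ a ∈ S, aᶜ ∈ S) (h2 : ∀ R ⊆ S, #R ≤ m → ∀ a, IsLUB R a → a ∈ S) {a b : B}
    (ha : a ∈ S) (hb : b ∈ S) : a ⊓ b ∈ S := by
  have h3 : aᶜ ⊔ bᶜ ∈ S := h2 {aᶜ, bᶜ} (by
    rintro _ (rfl | rfl)
    · exact h1 _ ha
    · exact h1 _ hb) (mk_le_of_countable (Set.toFinite _).countable hm) _ isLUB_pair
  have h4 := h1 _ h3
  rwa [compl_sup, compl_compl, compl_compl] at h4

/-! ### The minimal product -/

/-- the projections of the plane -/
def pM : Bool → C(ℚ × ℚ, ℚ)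
  | false => ⟨Prod.fst, continuous_fst⟩
  | true => ⟨Prod.snd, continuous_snd⟩

theorem pM_open : ∀ t, IsOpenMap (pM t)
  | false => isOpenMap_fst
  | true => isOpenMap_snd

/-- the regular open sets of the plane -/
noncomputable def MM : ProdData AA := mk (ℚ × ℚ) pM pM_open

/-- a rectangle -/
noncomputable def rect (a b c d : ℚ) : RO (ℚ × ℚ) :=
  pull (pM false) (pM_open false) (J a b) ⊓ pull (pM true) (pM_open true) (J c d)

theorem mem_rect (a b c d : ℚ) (z : ℚ × ℚ) :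
    z ∈ (rect a b c d).op ↔ (a < z.1 ∧ z.1 < b) ∧ (c < z.2 ∧ z.2 < d) := by
  rw [← mem_J, ← mem_J]
  rfl

theorem exists_rect (W : RO (ℚ × ℚ)) (z : ℚ × ℚ) (hz : z ∈ W.op) :
    ∃ a b c d, z ∈ (rect a b c d).op ∧ rect a b c d ≤ W ∧ a < b ∧ c < d := by
  have h1 : (W.op : Set (ℚ × ℚ)) ∈ nhds (z.1, z.2) := W.op.2.mem_nhds hz
  obtain ⟨U, hU, V, hV, hUV⟩ := mem_nhds_prod_iff.1 h1
  obtain ⟨a, b, ⟨h2, h3⟩, h4⟩ := mem_nhds_iff_exists_Ioo_subset.1 hU
  obtain ⟨c, d, ⟨h5, h6⟩, h7⟩ := mem_nhds_iff_exists_Ioo_subset.1 hV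
  refine ⟨a, b, c, d, (mem_rect _ _ _ _ _).2 ⟨⟨h2, h3⟩, h5, h6⟩, ?_, h2.trans h3, h5.trans h6⟩
  intro w hw
  obtain ⟨⟨h8, h9⟩, h10, h11⟩ := (mem_rect _ _ _ _ _).1 hw
  exact hUV (⟨h4 ⟨h8, h9⟩, h7 ⟨h10, h11⟩⟩ : (w.1, w.2) ∈ U ×ˢ V)

theorem MM_gen (m : Cardinal.{0}) (hm : ℵ₀ ≤ m) : Generates m MM := by
  intro S h1 h2 h3
  apply Set.eq_univ_of_forall
  intro W
  have hc : ({r | ∃ a b c d, r = rect a b c d ∧ r ≤ W} : Set (RO (ℚ × ℚ))).Countable := by
    refine (Set.countable_range (fun q : ℚ × ℚ × ℚ × ℚ => rect q.1 q.2.1 q.2.2.1 q.2.2.2)).mono ?_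
    rintro r ⟨a, b, c, d, rfl, -⟩
    exact ⟨(a, b, c, d), rfl⟩
  refine h3 {r | ∃ a b c d, r = rect a b c d ∧ r ≤ W} ?_ (mk_le_of_countable hc hm) W ?_
  · rintro r ⟨a, b, c, d, rfl, -⟩
    exact inf_mem hm h2 h3 (h1 false ⟨_, rfl⟩) (h1 true ⟨_, rfl⟩)
  · apply lub_of_union
    · rintro r ⟨a, b, c, d, -, h⟩
      exact h
    · intro z hz
      obtain ⟨a, b, c, d, h4, h5, -, -⟩ := exists_rect W z hz
      exact ⟨_, ⟨a, b, c, d, rfl, h5⟩, h4⟩

theorem MM_minimal (m n : Cardinal.{0}) (hm : ℵ₀ ≤ m) (hn : ℵ₀ ≤ n) : IsMinimal m n MM := by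
  refine ⟨mk_product m n _ pM pM_open (fun x y => ⟨(x, y), rfl, rfl⟩) (MM_gen m hm), ?_⟩
  intro b hb
  obtain ⟨z, hz⟩ := (ne_bot_iff (X := ℚ × ℚ) b).1 hb
  obtain ⟨a, a', c, c', h1, h2, -, -⟩ := exists_rect b z hz
  let e : Bool → MM.B := fun t => match t with
    | false => MM.i false (J a a')
    | true => MM.i true (J c c')
  refine ⟨Set.univ, mk_le_of_countable (Set.toFinite _).countable hn, e, ?_, rect a a' c c', ?_,
    (ne_bot_iff _).2 ⟨z, h1⟩, h2⟩
  · rintro (_ | _) -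
    · exact ⟨_, rfl⟩
    · exact ⟨_, rfl⟩
  · constructor
    · rintro _ ⟨_ | _, -, rfl⟩
      · exact inf_le_left
      · exact inf_le_right
    · intro b hb
      exact le_inf (hb ⟨false, trivial, rfl⟩) (hb ⟨true, trivial, rfl⟩)

/-! ### The other product -/

/-- countably many copies of `ℚ` -/
abbrev YY : Type := Σ _ : ℚ, ℚ

/-- the two maps: on the copy with the index `g` these are the identity and the translation by
`g` -/
def pQ : Bool → C(YY, ℚ)
  | false => ⟨fun y => y.2, continuous_sigma fun _ => continuous_id⟩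
  | true => ⟨fun y => y.2 + y.1, continuous_sigma fun _ => continuous_id.add continuous_const⟩

theorem pQ_open : ∀ t, IsOpenMap (pQ t)
  | false => isOpenMap_sigma.2 fun _ => IsOpenMap.id
  | true => isOpenMap_sigma.2 fun i => (Homeomorph.addRight i).isOpenMap

/-- the regular open sets of the disjoint union of countably many copies of `ℚ` -/
noncomputable def QQ : ProdData AA := mk YY pQ pQ_open

theorem isOpen_copy (P : ℚ → Prop) : IsOpen {y : YY | P y.1} := by
  rw [isOpen_sigma_iff]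
  intro i
  by_cases h : P i
  · have : (fun x : ℚ => (⟨i, x⟩ : YY)) ⁻¹' {y : YY | P y.1} = Set.univ := by
      ext x; simp [h]
    exact this ▸ isOpen_univ
  · have : (fun x : ℚ => (⟨i, x⟩ : YY)) ⁻¹' {y : YY | P y.1} = ∅ := by
      ext x; simp [h]
    exact this ▸ isOpen_empty

theorem compl_copy (P : ℚ → Prop) : (⟨{y : YY | P y.1}, isOpen_copy P⟩ : Opens YY)ᶜ =
    ⟨{y : YY | ¬ P y.1}, isOpen_copy fun g => ¬ P g⟩ := by
  apply Opens.ext
  rw [Opens.coe_compl_eq_interior_compl]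
  change interior {y : YY | P y.1}ᶜ = {y : YY | ¬ P y.1}
  exact (isOpen_copy fun g => ¬ P g).interior_eq

/-- the copies with an index in `P` -/
def copy (P : ℚ → Prop) : RO YY := ⟨⟨{y : YY | P y.1}, isOpen_copy P⟩, by
  unfold Heyting.IsRegular
  rw [compl_copy, compl_copy fun g => ¬ P g]
  simp only [not_not]⟩

theorem mem_copy (P : ℚ → Prop) (y : YY) : y ∈ (copy P).op ↔ P y.1 := Iff.rfl

theorem copy_compl (g : ℚ) : (copy fun x => x ≠ g)ᶜ = copy fun x => x = g := by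
  apply op_inj
  have := compl_copy fun x => x ≠ g
  simp only [ne_eq, not_not] at this
  exact this

theorem Rset_QQ (g : ℚ) : IsLUB (Rset QQ g) (copy fun x => x ≠ g) := by
  apply lub_of_union (X := YY)
  · rintro _ ⟨a, b, c, d, h, rfl⟩ y ⟨hy1, hy2⟩
    change y.1 ≠ g
    intro h1
    have h2 := (mem_J a b y.2).1 hy1
    have h3 : c < y.2 + y.1 ∧ y.2 + y.1 < d := (mem_J c d _).1 hy2
    rw [h1] at h3
    exact h y.2 h2.1 h2.2 h3
  · rintro ⟨g', x⟩ (hy : g' ≠ g)
    have hpos : 0 < |g' - g| := abs_pos.2 (sub_ne_zero.2 hy)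
    obtain ⟨e, he, he2⟩ : ∃ e : ℚ, 0 < e ∧ 2 * e ≤ |g' - g| :=
      ⟨|g' - g| / 2, by linarith, by linarith⟩
    refine ⟨_, ⟨x - e, x + e, x + g' - e, x + g' + e, ?_, rfl⟩, ?_, ?_⟩
    · rintro y hy1 hy2 ⟨hy3, hy4⟩
      rcases abs_cases (g' - g) with ⟨h1, -⟩ | ⟨h1, -⟩ <;> rw [h1] at he2 <;> linarith
    · exact (mem_J _ _ _).2 ⟨by change x - e < x; linarith, by change x < x + e; linarith⟩
    · exact (mem_J _ _ _).2 ⟨by change x + g' - e < x + g'; linarith,
        by change x + g' < x + g' + e; linarith⟩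

/-- the inclusion of a copy -/
def inc (g : ℚ) : C(ℚ, YY) := ⟨fun x => ⟨g, x⟩, continuous_sigmaMk (σ := fun _ : ℚ => ℚ) (i := g)⟩

theorem inc_open (g : ℚ) : IsOpenMap (inc g) := isOpenMap_sigmaMk (σ := fun _ : ℚ => ℚ) (i := g)

theorem QQ_gen (m : Cardinal.{0}) (hm : ℵ₀ ≤ m) : Generates m QQ := by
  intro S h1 h2 h3
  have hE : ∀ g, (copy fun x => x ≠ g) ∈ S := by
    intro g
    refine h3 (Rset QQ g) ?_ (mk_le_of_countable (Rset_countable QQ g) hm) _ (Rset_QQ g)
    rintro _ ⟨a, b, c, d, -, rfl⟩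
    exact inf_mem hm h2 h3 (h1 false ⟨_, rfl⟩) (h1 true ⟨_, rfl⟩)
  have hF : ∀ g, (copy fun x => x = g) ∈ S := by
    intro g
    rw [← copy_compl]
    exact h2 _ (hE g)
  apply Set.eq_univ_of_forall
  intro W
  let w : ℚ → RO YY := fun g =>
    (copy fun x => x = g) ⊓ pull (pQ false) (pQ_open false) (pull (inc g) (inc_open g) W)
  refine h3 (Set.range w) ?_ (mk_le_of_countable (Set.countable_range w) hm) W ?_
  · rintro _ ⟨g, rfl⟩
    exact inf_mem hm h2 h3 (hF g) (h1 false ⟨_, rfl⟩)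
  · apply lub_of_union (X := YY)
    · rintro _ ⟨g, rfl⟩ ⟨g', x⟩ ⟨(h4 : g' = g), h5⟩
      subst h4
      exact h5
    · rintro ⟨g, x⟩ hy
      refine ⟨w g, ⟨g, rfl⟩, rfl, ?_⟩
      exact hy

theorem QQ_product (m n : Cardinal.{0}) (hm : ℵ₀ ≤ m) : IsProduct m n QQ :=
  mk_product m n _ pQ pQ_open (fun x y => ⟨⟨y - x, x⟩, rfl, by
    change x + (y - x) = y; ring⟩) (QQ_gen m hm)

theorem main (m n : Cardinal.{0}) (hm : ℵ₀ ≤ m) (M : ProdData AA) (hM : IsMinimal m n M) :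
    ¬ Le m M QQ := by
  rintro ⟨h, hh, hi⟩
  have h1 : ∀ g, h (copy fun x => x ≠ g) = ⊤ := by
    intro g
    have h2 := hh.map_lub _ _ (mk_le_of_countable (Rset_countable QQ g) hm) (Rset_QQ g)
    have h3 : h '' Rset QQ g = Rset M g := by
      ext r
      constructor
      · rintro ⟨_, ⟨a, b, c, d, h4, rfl⟩, rfl⟩
        refine ⟨a, b, c, d, h4, ?_⟩
        rw [hh.map_inf, ← hi, ← hi]
      · rintro ⟨a, b, c, d, h4, rfl⟩
        refine ⟨_, ⟨a, b, c, d, h4, rfl⟩, ?_⟩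
        rw [hh.map_inf, ← hi, ← hi]
    rw [h3] at h2
    exact h2.unique (Rset_minimal M hM g)
  have h2 : ∀ g, h (copy fun x => x = g) = ⊥ := by
    intro g
    rw [← copy_compl]
    have := hh.map_compl (copy fun x => x ≠ g)
    rw [h1, compl_top] at this
    exact this
  have h3 : IsLUB (Set.range fun g => copy fun x => x = g) (⊤ : RO YY) := by
    apply lub_of_union (X := YY)
    · exact fun _ _ => le_top
    · rintro ⟨g, x⟩ -
      exact ⟨_, ⟨g, rfl⟩, rfl⟩
  have h4 := hh.map_lub _ _ (mk_le_of_countable (Set.countable_range _) hm) h3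
  have h5 : h (⊤ : RO YY) = ⊥ := by
    rw [eq_bot_iff]
    apply h4.2
    rintro _ ⟨_, ⟨g, rfl⟩, rfl⟩
    exact (h2 g).le
  have h6 : h (⊤ : RO YY) = ⊤ := hh.top
  have h7 : M.i false (⊤ : RO ℚ) = ⊤ := (hM.1.1.hom false).top
  have h8 : M.i false (⊥ : RO ℚ) = ⊥ := (hM.1.1.hom false).bot
  have h9 : (⊤ : RO ℚ) = ⊥ := hM.1.1.inj false (by rw [h7, h8, ← h5, h6])
  have h0 : (0 : ℚ) ∈ (⊤ : RO ℚ).op := trivial
  rw [h9] at h0
  exact not_mem_bot _ h0

theorem nontrivial_RO : Nontrivial (RO ℚ) := by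
  refine ⟨⊤, ⊥, fun h => ?_⟩
  have h0 : (0 : ℚ) ∈ (⊤ : RO ℚ).op := trivial
  rw [h] at h0
  exact not_mem_bot _ h0

/-- For all infinite cardinals `n ≤ m` there are two non-degenerate Boolean algebras (`T` has two
elements), which have minimal `(m, n)`-products, and an `(m, n)`-product `Q` of them such that no
minimal `(m, n)`-product `M` satisfies `M ≤ Q`. So the minimal `(m, n)`-product is not the smallest
element of the class of all `(m, n)`-products. -/
theorem result : ∀ n m : Cardinal.{0}, ℵ₀ ≤ n → n ≤ m →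
    ∃ (T : Type) (A : T → Type) (_ : ∀ t, BooleanAlgebra (A t)), #T = 2 ∧
      (∀ t, Nontrivial (A t)) ∧ (∃ M : ProdData A, IsMinimal m n M) ∧
      ∃ Q : ProdData A, IsProduct m n Q ∧ ∀ M : ProdData A, IsMinimal m n M → ¬ Le m M Q := by
  intro n m hn hnm
  refine ⟨Bool, AA, inferInstance, by simp, fun _ => nontrivial_RO,
    ⟨MM, MM_minimal m n (hn.trans hnm) hn⟩, QQ, QQ_product m n (hn.trans hnm), ?_⟩
  intro M hM
  exact main m n (hn.trans hnm) M hM

end Pool.Agent.Results.MP_6fd33d_al.NotSmallest
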